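import Pool.Agent.Lib_MP_d26ff6_al.Defs
import Pool.Agent.ETGP.Rank3f

/-!
The elementary type conjecture for finite quaternionic structures with `-1 = 1` in which at most
eight quaternions have a given slot.
-/

namespace Pool.Agent.Results.MP_d26ff6_al.BoundedRankTheorem

open QS

/-- The number of quaternions `q (x, y)`, `y ∈ G`. -/
noncomputable def rk (S : QStruct) (x : S.G) : ℕ := Nat.card {c : S.Q // ∃ y, S.q x y = c}

/-- (1) A finite quaternionic structure with `-1 = 1` in which every `q (x, G)` has at most eight
elements is of elementary type.  (2) A finite quaternionic structure with `-1 = 1` and at most 15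
quaternions is of elementary type. -/
theorem result :
    (∀ S : QStruct, Finite S.G → S.neg = 1 → (∀ x : S.G, rk S x ≤ 8) → ElemType S) ∧
    (∀ S : QStruct, Finite S.G → S.neg = 1 → Nat.card S.Q ≤ 15 → ElemType S) := by
  have h1 : ∀ S : QStruct, Finite S.G → S.neg = 1 → (∀ x : S.G, rk S x ≤ 8) → ElemType S :=
    fun S hf hneg h => Pool.Agent.ETGP.elem_of_rank3 S hf hneg fun x => h x
  refine ⟨h1, fun S hf hneg h15 => h1 S hf hneg fun x => ?_⟩
  exact Pool.Agent.ETGP.rk_le8 S hf hneg h15 x

end Pool.Agent.Results.MP_d26ff6_al.BoundedRankTheorem
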